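import Mathlib

set_option autoImplicit false
set_option maxSynthPendingDepth 3

open scoped RealInnerProductSpace

namespace Pool.Agent.Results.MP_04ec84_gt.Exact

abbrev E (d : ℕ) : Type := EuclideanSpace ℝ (Fin d)

/-- compact convex sets whose width in every direction equals `1` -/
def CW {d : ℕ} (K : Set (E d)) : Prop :=
  IsCompact K ∧ Convex ℝ K ∧ K.Nonempty ∧ ∀ u : E d, ‖u‖ = 1 →
    sSup ((fun x => ⟪u, x⟫) '' K) - sInf ((fun x => ⟪u, x⟫) '' K) = 1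

/-- midpoints of diametral chords -/
def Mid {d : ℕ} (K : Set (E d)) : Set (E d) :=
  {m | ∃ x ∈ K, ∃ y ∈ K, dist x y = 1 ∧ m = (1 / 2 : ℝ) • (x + y)}

lemma CW.dist_le {d : ℕ} {K : Set (E d)} (h : CW K) {x y : E d} (hx : x ∈ K) (hy : y ∈ K) :
    dist x y ≤ 1 := by
  by_cases hxy : x = y
  · simp [hxy]
  have hn : 0 < ‖x - y‖ := norm_pos_iff.2 (sub_ne_zero.2 hxy)
  set u : E d := ‖x - y‖⁻¹ • (x - y) with hu
  have hu1 : ‖u‖ = 1 := by rw [hu, norm_smul, norm_inv, norm_norm, inv_mul_cancel₀ hn.ne']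
  have hc : IsCompact ((fun x => ⟪u, x⟫) '' K) := h.1.image (by fun_prop)
  have h1 : ⟪u, x⟫ ≤ sSup ((fun x => ⟪u, x⟫) '' K) := le_csSup hc.bddAbove ⟨x, hx, rfl⟩
  have h2 : sInf ((fun x => ⟪u, x⟫) '' K) ≤ ⟪u, y⟫ := csInf_le hc.bddBelow ⟨y, hy, rfl⟩
  have h3 := h.2.2.2 u hu1
  have h4 : ⟪u, x⟫ - ⟪u, y⟫ = ‖x - y‖ := by
    rw [← inner_sub_right, hu, real_inner_smul_left, real_inner_self_eq_norm_sq]
    field_simp
  rw [dist_eq_norm]
  linarith

lemma completion {d : ℕ} (S : Set (E d)) (hS : S.Nonempty)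
    (hd : ∀ x ∈ S, ∀ y ∈ S, dist x y ≤ 1) : ∃ K, S ⊆ K ∧ CW K := by
  obtain ⟨K, hSK, hK⟩ := zorn_subset_nonempty {T : Set (E d) | ∀ x ∈ T, ∀ y ∈ T, dist x y ≤ 1}
    (fun c hc hch _ => ⟨⋃₀ c, by
      rintro x ⟨A, hA, hx⟩ y ⟨B, hB, hy⟩
      rcases hch.total hA hB with h | h
      · exact hc hB x (h hx) y hy
      · exact hc hA x hx y (h hy), fun s hs => Set.subset_sUnion_of_mem hs⟩) S hd
  have hmem : ∀ z, (∀ x ∈ K, dist z x ≤ 1) → z ∈ K := by
    intro z hz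
    have : insert z K ⊆ K := hK.2 (y := insert z K) (by
      rintro x (rfl | hx) y (rfl | hy)
      · simp
      · exact hz y hy
      · rw [dist_comm]; exact hz x hx
      · exact hK.1 x hx y hy) (Set.subset_insert _ _)
    exact this (Set.mem_insert _ _)
  have hKeq : K = ⋂ x ∈ K, Metric.closedBall x 1 := by
    ext z
    simp only [Set.mem_iInter, Metric.mem_closedBall]
    exact ⟨fun hz x hx => hK.1 z hz x hx, hmem z⟩
  have hne : K.Nonempty := hS.mono hSK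
  have hcl : IsClosed K := by
    rw [hKeq]; exact isClosed_biInter fun x _ => Metric.isClosed_closedBall
  have hcv : Convex ℝ K := by
    rw [hKeq]; exact convex_iInter₂ fun x _ => convex_closedBall x 1
  have hcp : IsCompact K := by
    obtain ⟨x0, hx0⟩ := hne
    exact (isCompact_closedBall x0 1).of_isClosed_subset hcl fun z hz => hK.1 z hz x0 hx0
  refine ⟨K, hSK, hcp, hcv, hne, fun u hu => ?_⟩
  obtain ⟨x, hx, hmax⟩ := hcp.exists_isMaxOn hne (f := fun x => ⟪u, x⟫) (by fun_prop)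
  have hmax' : ∀ y ∈ K, ⟪u, y⟫ ≤ ⟪u, x⟫ := fun y hy => hmax hy
  have key : ∀ y ∈ K, ⟪u, y - x⟫ + ‖y - x‖ ^ 2 / 2 ≤ 0 := by
    intro y hy
    have hyx : ‖y - x‖ ≤ 1 := by rw [← dist_eq_norm]; exact hK.1 y hy x hx
    have step : ∀ t : ℝ, 0 < t → t < 1 → ⟪u, y - x⟫ + (1 - t) * ‖y - x‖ ^ 2 / 2 ≤ 0 := by
      intro t ht0 ht1
      set δ := t * (1 - t) * ‖y - x‖ ^ 2 with hδ
      have hδ0 : 0 ≤ δ := by have := sub_pos.2 ht1; positivity
      have hδ1 : δ ≤ 1 := by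
        have h1 : ‖y - x‖ ^ 2 ≤ 1 := by nlinarith [norm_nonneg (y - x)]
        have h2 : t * (1 - t) ≤ 1 := by nlinarith
        have h3 : 0 ≤ t * (1 - t) := by nlinarith
        nlinarith [sq_nonneg ‖y - x‖]
      have hz : x + t • (y - x) + (δ / 2) • u ∈ K := by
        apply hmem
        intro c hc
        have h1 : ‖x - c‖ ≤ 1 := by rw [← dist_eq_norm]; exact hK.1 x hx c hc
        have h2 : ‖y - c‖ ≤ 1 := by rw [← dist_eq_norm]; exact hK.1 y hy c hc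
        have e1 : y - c = (x - c) + (y - x) := by abel
        have h3 : ‖y - c‖ ^ 2 = ‖x - c‖ ^ 2 + 2 * ⟪x - c, y - x⟫ + ‖y - x‖ ^ 2 := by
          rw [e1, norm_add_sq_real]
        have h4 : ‖(x - c) + t • (y - x)‖ ^ 2 =
            ‖x - c‖ ^ 2 + 2 * (t * ⟪x - c, y - x⟫) + t ^ 2 * ‖y - x‖ ^ 2 := by
          rw [norm_add_sq_real, real_inner_smul_right, norm_smul, mul_pow, Real.norm_eq_abs,
            sq_abs]
        have h5 : ‖(x - c) + t • (y - x)‖ ^ 2 ≤ (1 - δ / 2) ^ 2 := by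
          have a1 : ‖x - c‖ ^ 2 ≤ 1 := by nlinarith [norm_nonneg (x - c)]
          have a2 : ‖y - c‖ ^ 2 ≤ 1 := by nlinarith [norm_nonneg (y - c)]
          have a3 : ‖(x - c) + t • (y - x)‖ ^ 2 =
              (1 - t) * ‖x - c‖ ^ 2 + t * ‖y - c‖ ^ 2 - δ := by rw [h4, h3, hδ]; ring
          nlinarith [sq_nonneg δ, mul_le_mul_of_nonneg_left a1 (sub_pos.2 ht1).le,
            mul_le_mul_of_nonneg_left a2 ht0.le]
        have h6 : ‖(x - c) + t • (y - x)‖ ≤ 1 - δ / 2 :=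
          abs_le_of_sq_le_sq' h5 (by linarith) |>.2
        rw [dist_eq_norm]
        have e2 : x + t • (y - x) + (δ / 2) • u - c = ((x - c) + t • (y - x)) + (δ / 2) • u := by
          abel
        rw [e2]
        refine (norm_add_le _ _).trans ?_
        rw [norm_smul, hu, Real.norm_eq_abs, abs_of_nonneg (by linarith)]
        linarith
      have h7 := hmax' _ hz
      rw [inner_add_right, inner_add_right, real_inner_smul_right, real_inner_smul_right,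
        real_inner_self_eq_norm_sq, hu] at h7
      have h8 : t * (⟪u, y - x⟫ + (1 - t) * ‖y - x‖ ^ 2 / 2) ≤ 0 := by rw [hδ] at h7; linarith
      by_contra hc
      push Not at hc
      exact absurd h8 (not_le.2 (mul_pos ht0 hc))
    apply le_of_forall_pos_le_add
    intro ε hε
    have h1 := step (min ε (1 / 2)) (lt_min hε (by norm_num))
      ((min_le_right _ _).trans_lt (by norm_num))
    have h2 : ‖y - x‖ ^ 2 ≤ 1 := by nlinarith [norm_nonneg (y - x)]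
    have h3 : min ε (1 / 2) ≤ ε := min_le_left _ _
    have h4 : 0 < min ε (1 / 2) := lt_min hε (by norm_num)
    nlinarith [sq_nonneg ‖y - x‖]
  have hxu : x - u ∈ K := by
    apply hmem
    intro y hy
    have h1 := key y hy
    have h2 : ‖u + (y - x)‖ ^ 2 ≤ 1 ^ 2 := by rw [norm_add_sq_real, hu]; linarith
    rw [dist_comm, dist_eq_norm]
    have e : y - (x - u) = u + (y - x) := by abel
    rw [e]
    exact (abs_le_of_sq_le_sq' h2 zero_le_one).2
  have s1 : sSup ((fun x => ⟪u, x⟫) '' K) = ⟪u, x⟫ :=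
    IsGreatest.csSup_eq ⟨⟨x, hx, rfl⟩, by rintro _ ⟨y, hy, rfl⟩; exact hmax' y hy⟩
  have s2 : sInf ((fun x => ⟪u, x⟫) '' K) = ⟪u, x⟫ - 1 := by
    refine IsLeast.csInf_eq ⟨⟨x - u, hxu, ?_⟩, ?_⟩
    · simp only [inner_sub_right, real_inner_self_eq_norm_sq, hu]; norm_num
    · rintro _ ⟨y, hy, rfl⟩
      have h1 : ⟪u, x - y⟫ ≤ ‖u‖ * ‖x - y‖ := real_inner_le_norm _ _
      have h2 : ‖x - y‖ ≤ 1 := by rw [← dist_eq_norm]; exact hK.1 x hx y hy
      rw [inner_sub_right, hu] at h1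
      simp only
      linarith
  rw [s1, s2]; ring

lemma sq_of_le {a : ℝ} (h0 : 0 ≤ a) (h : a ≤ 1) : a ^ 2 ≤ 1 := by nlinarith

lemma upper {d : ℕ} {K : Set (E d)} (h : CW K) {p q : E d} (hp : p ∈ Mid K) (hq : q ∈ Mid K) :
    dist p q ≤ 1 / √2 := by
  obtain ⟨x, hx, y, hy, hxy, rfl⟩ := hp
  obtain ⟨u, hu, v, hv, huv, rfl⟩ := hq
  have h1 := sq_of_le dist_nonneg (h.dist_le hx hu)
  have h2 := sq_of_le dist_nonneg (h.dist_le hx hv)
  have h3 := sq_of_le dist_nonneg (h.dist_le hy hu)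
  have h4 := sq_of_le dist_nonneg (h.dist_le hy hv)
  have h5 : dist x y ^ 2 = 1 := by rw [hxy]; norm_num
  have h6 : dist u v ^ 2 = 1 := by rw [huv]; norm_num
  have key : 4 * dist ((1 / 2 : ℝ) • (x + y)) ((1 / 2 : ℝ) • (u + v)) ^ 2 + dist x y ^ 2 +
      dist u v ^ 2 = dist x u ^ 2 + dist x v ^ 2 + dist y u ^ 2 + dist y v ^ 2 := by
    simp only [EuclideanSpace.dist_sq_eq, Finset.mul_sum, ← Finset.sum_add_distrib]
    refine Finset.sum_congr rfl fun i _ => ?_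
    simp only [Real.dist_eq, sq_abs, PiLp.smul_apply, PiLp.add_apply, smul_eq_mul]
    ring
  have h7 : (1 / √2) ^ 2 = 1 / 2 := by
    rw [div_pow, Real.sq_sqrt (by norm_num)]; norm_num
  refine (abs_le_of_sq_le_sq' ?_ (by positivity)).2
  rw [h7]; linarith

lemma plane_ineq (A B R α β : ℝ) (hAB : A + B = 1) (h1 : R + A + 2 * α ≤ 1)
    (h2 : R + A - 2 * α ≤ 1) (h3 : R + B + 2 * β ≤ 1) (h4 : R + B - 2 * β ≤ 1)
    (h5 : α ^ 2 * B + β ^ 2 * A = R * A * B) : R ≤ 1 / 4 := by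
  by_contra hc
  push Not at hc
  have hB : R ≤ B := by linarith
  have hA : R ≤ A := by linarith
  have a1 : 4 * α ^ 2 ≤ (B - 1 / 4) ^ 2 := by nlinarith
  have a2 : 4 * β ^ 2 ≤ (A - 1 / 4) ^ 2 := by nlinarith
  have b1 := mul_le_mul_of_nonneg_right a1 (show 0 ≤ B by linarith)
  have b2 := mul_le_mul_of_nonneg_right a2 (show 0 ≤ A by linarith)
  have hP : 3 / 16 < A * B := by nlinarith
  have b3 : A * B < 4 * (R * A * B) := by nlinarith
  have e : B = 1 - A := by linarith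
  subst e
  nlinarith

lemma upper2 {K : Set (E 2)} (h : CW K) {p q : E 2} (hp : p ∈ Mid K) (hq : q ∈ Mid K) :
    dist p q ≤ 1 / 2 := by
  obtain ⟨x, hx, y, hy, hxy, rfl⟩ := hp
  obtain ⟨u, hu, v, hv, huv, rfl⟩ := hq
  have h1 := sq_of_le dist_nonneg (h.dist_le hx hu)
  have h2 := sq_of_le dist_nonneg (h.dist_le hx hv)
  have h3 := sq_of_le dist_nonneg (h.dist_le hy hu)
  have h4 := sq_of_le dist_nonneg (h.dist_le hy hv)
  have h5 : dist x y ^ 2 = 1 := by rw [hxy]; norm_num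
  have h6 : dist u v ^ 2 = 1 := by rw [huv]; norm_num
  refine (abs_le_of_sq_le_sq' ?_ (by positivity)).2
  simp only [EuclideanSpace.dist_sq_eq, Fin.sum_univ_two, Real.dist_eq, sq_abs, PiLp.smul_apply,
    PiLp.add_apply, smul_eq_mul] at *
  generalize x 0 = x0 at *
  generalize x 1 = x1 at *
  generalize y 0 = y0 at *
  generalize y 1 = y1 at *
  generalize u 0 = u0 at *
  generalize u 1 = u1 at *
  generalize v 0 = v0 at *
  generalize v 1 = v1 at *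
  obtain ⟨p0, hp0⟩ : ∃ p0, p0 = 1 / 2 * (x0 + y0) - 1 / 2 * (u0 + v0) := ⟨_, rfl⟩
  obtain ⟨p1, hp1⟩ : ∃ p1, p1 = 1 / 2 * (x1 + y1) - 1 / 2 * (u1 + v1) := ⟨_, rfl⟩
  obtain ⟨a0, ha0⟩ : ∃ a0, a0 = ((x0 - y0) + (u0 - v0)) / 2 := ⟨_, rfl⟩
  obtain ⟨a1, ha1⟩ : ∃ a1, a1 = ((x1 - y1) + (u1 - v1)) / 2 := ⟨_, rfl⟩
  obtain ⟨b0, hb0⟩ : ∃ b0, b0 = ((x0 - y0) - (u0 - v0)) / 2 := ⟨_, rfl⟩
  obtain ⟨b1, hb1⟩ : ∃ b1, b1 = ((x1 - y1) - (u1 - v1)) / 2 := ⟨_, rfl⟩
  have hab : a0 * b0 + a1 * b1 = 0 := by rw [ha0, ha1, hb0, hb1]; linarith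
  have := plane_ineq (a0 ^ 2 + a1 ^ 2) (b0 ^ 2 + b1 ^ 2) (p0 ^ 2 + p1 ^ 2) (p0 * a0 + p1 * a1)
    (p0 * b0 + p1 * b1) (by rw [ha0, ha1, hb0, hb1]; linarith)
    (by rw [ha0, ha1, hp0, hp1]; linarith) (by rw [ha0, ha1, hp0, hp1]; linarith)
    (by rw [hb0, hb1, hp0, hp1]; linarith) (by rw [hb0, hb1, hp0, hp1]; linarith)
    (by linear_combination ((p0 ^ 2 - p1 ^ 2) * (a0 * b0 - a1 * b1) +
      2 * p0 * p1 * (a0 * b1 + a1 * b0)) * hab)
  rw [← hp0, ← hp1]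
  linarith

lemma attain {d : ℕ} (x y u v : E d) (r : ℝ) (hxy : dist x y = 1) (huv : dist u v = 1)
    (h1 : dist x u ≤ 1) (h2 : dist x v ≤ 1) (h3 : dist y u ≤ 1) (h4 : dist y v ≤ 1)
    (hr : dist ((1 / 2 : ℝ) • (x + y)) ((1 / 2 : ℝ) • (u + v)) = r)
    (hup : ∀ K : Set (E d), CW K → ∀ p ∈ Mid K, ∀ q ∈ Mid K, dist p q ≤ r) :
    IsGreatest {s | ∃ K : Set (E d), CW K ∧ s = Metric.diam (Mid K)} r := by
  have hr0 : 0 ≤ r := hr ▸ dist_nonneg
  have hle : ∀ K : Set (E d), CW K → Metric.diam (Mid K) ≤ r := fun K hK =>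
    Metric.diam_le_of_forall_dist_le hr0 (hup K hK)
  refine ⟨?_, by rintro _ ⟨K, hK, rfl⟩; exact hle K hK⟩
  obtain ⟨K, hSK, hK⟩ := completion ({x, y, u, v} : Set (E d)) ⟨x, by simp⟩ (by
    have := dist_comm x y
    have := dist_comm x u
    have := dist_comm x v
    have := dist_comm y u
    have := dist_comm y v
    have := dist_comm u v
    rintro a (rfl | rfl | rfl | rfl) b (rfl | rfl | rfl | rfl) <;>
      first | linarith | (rw [dist_self]; norm_num))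
  refine ⟨K, hK, le_antisymm ?_ (hle K hK)⟩
  rw [← hr]
  refine Metric.dist_le_diam_of_mem (Metric.isBounded_iff.2 ⟨r, fun p hp q hq => hup K hK p hp q hq⟩)
    ⟨x, hSK (by simp), y, hSK (by simp), hxy, rfl⟩ ⟨u, hSK (by simp), v, hSK (by simp), huv, rfl⟩

lemma dist_eq_of_sq {d : ℕ} {x y : E d} {r : ℝ} (hr : 0 ≤ r) (h : dist x y ^ 2 = r ^ 2) :
    dist x y = r := (pow_left_inj₀ dist_nonneg hr two_ne_zero).1 h

noncomputable def P3 {n : ℕ} (a b c : ℝ) : E (n + 3) :=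
  WithLp.toLp 2 (Fin.cons a (Fin.cons b (Fin.cons c 0)))

lemma P3_dist {n : ℕ} (a b c a' b' c' : ℝ) :
    dist (P3 a b c : E (n + 3)) (P3 a' b' c') ^ 2 = (a - a') ^ 2 + (b - b') ^ 2 + (c - c') ^ 2 := by
  simp [EuclideanSpace.dist_sq_eq, P3, Fin.sum_univ_succ, Real.dist_eq, sq_abs, add_assoc]

lemma P3_mid {n : ℕ} (a b c a' b' c' : ℝ) :
    (1 / 2 : ℝ) • ((P3 a b c : E (n + 3)) + P3 a' b' c') =
      P3 ((a + a') / 2) ((b + b') / 2) ((c + c') / 2) := by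
  ext i
  refine Fin.cases ?_ (fun i => Fin.cases ?_ (fun i => Fin.cases ?_ (fun i => ?_) i) i) i <;>
    simp only [P3, PiLp.smul_apply, PiLp.add_apply, smul_eq_mul, Fin.cons_zero, Fin.cons_succ,
      Pi.zero_apply] <;> ring

theorem result (d : ℕ) (hd : 2 ≤ d) :
    IsGreatest {s | ∃ K : Set (E d), CW K ∧ s = Metric.diam (Mid K)}
      (if d = 2 then 1 / 2 else 1 / √2) := by
  by_cases h2 : d = 2
  · subst h2
    rw [if_pos rfl]
    have h3 : √3 ^ 2 = 3 := Real.sq_sqrt (by norm_num)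
    refine attain !₂[0, 0] !₂[1, 0] !₂[0, 0] !₂[1 / 2, √3 / 2] _ ?_ ?_ ?_ ?_ ?_ ?_ ?_
      (fun K hK p hp q hq => upper2 hK hp hq)
    all_goals
      first
        | (rw [dist_self]; norm_num)
        | (refine dist_eq_of_sq (by norm_num) ?_
           simp [EuclideanSpace.dist_sq_eq, Real.dist_eq, sq_abs] <;> nlinarith)
        | (refine (dist_eq_of_sq (r := 1) (by norm_num) ?_).le
           simp [EuclideanSpace.dist_sq_eq, Real.dist_eq, sq_abs] <;> nlinarith)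
  · rw [if_neg h2]
    obtain ⟨n, rfl⟩ : ∃ n, d = n + 3 := ⟨d - 3, by omega⟩
    have h7 : (1 / √2) ^ 2 = 1 / 2 := by
      rw [div_pow, Real.sq_sqrt (by norm_num)]; norm_num
    have hs0 : 0 ≤ 1 / √2 := by positivity
    generalize hs : 1 / √2 = s at *
    refine attain (P3 0 0 0) (P3 s s 0) (P3 s 0 s) (P3 0 s s) _ ?_ ?_ ?_ ?_ ?_ ?_ ?_
      (fun K hK p hp q hq => hs ▸ upper hK hp hq)
    · exact dist_eq_of_sq zero_le_one (by rw [P3_dist]; linarith)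
    · exact dist_eq_of_sq zero_le_one (by rw [P3_dist]; linarith)
    · exact (dist_eq_of_sq zero_le_one (by rw [P3_dist]; linarith)).le
    · exact (dist_eq_of_sq zero_le_one (by rw [P3_dist]; linarith)).le
    · exact (dist_eq_of_sq zero_le_one (by rw [P3_dist]; linarith)).le
    · exact (dist_eq_of_sq zero_le_one (by rw [P3_dist]; linarith)).le
    · rw [P3_mid, P3_mid]
      exact dist_eq_of_sq hs0 (by rw [P3_dist]; ring)

end Pool.Agent.Results.MP_04ec84_gt.Exact
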